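import Pool.Agent.N904.AP.Stm

/-!
# Project AP (helper904), job Good (helper614): integer combinatorics of the Apollonian packing
-/

set_option autoImplicit false

namespace Pool.Agent.N614.AP

open Pool.Agent.N904.AP

theorem rf_self (i : Fin 4) (x : Fin 4 → ℤ) : rf i x i = - x i := by simp [rf]

theorem rf_ne {i j : Fin 4} (h : j ≠ i) (x : Fin 4 → ℤ) : rf i x j = x j + 2 * x i := by
  simp [rf, h]

theorem rf_rf (i : Fin 4) (x : Fin 4 → ℤ) : rf i (rf i x) = x := by
  funext j
  by_cases h : j = i
  · subst h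
    rw [rf_self, rf_self, neg_neg]
  · rw [rf_ne h, rf_ne h, rf_self]
    ring

theorem BB_rf (i : Fin 4) (x y : Fin 4 → ℤ) : BB (rf i x) (rf i y) = BB x y := by
  unfold BB rf
  simp only [Fin.sum_univ_four]
  fin_cases i <;> simp <;> ring

theorem BB_rf' (i : Fin 4) (x y : Fin 4 → ℤ) : BB (rf i x) y = BB x (rf i y) := by
  have h := BB_rf i x (rf i y)
  rwa [rf_rf] at h

theorem BB_perm (π : Equiv.Perm (Fin 4)) (x y : Fin 4 → ℤ) : BB (x ∘ π) (y ∘ π) = BB x y := by
  unfold BB
  simp only [Function.comp_apply]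
  rw [Equiv.sum_comp π (fun i => x i * y i), Equiv.sum_comp π x, Equiv.sum_comp π y]

theorem rf_perm (π : Equiv.Perm (Fin 4)) (i : Fin 4) (x : Fin 4 → ℤ) :
    (rf i x) ∘ π = rf (π.symm i) (x ∘ π) := by
  funext j
  simp only [Function.comp_apply, rf, Equiv.apply_symm_apply, Equiv.eq_symm_apply]

theorem bas_perm (π : Equiv.Perm (Fin 4)) (k : Fin 4) :
    (bas k : Fin 4 → ℤ) ∘ π = bas (π.symm k) := by
  funext j
  simp only [Function.comp_apply, bas, Pi.single_apply, Equiv.eq_symm_apply]

theorem bas_swap {j k : Fin 4} : (bas k : Fin 4 → ℤ) ∘ Equiv.swap j k = bas j := by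
  rw [bas_perm, Equiv.symm_swap, Equiv.swap_apply_right]

theorem bas_fix {j k l : Fin 4} (h1 : l ≠ j) (h2 : l ≠ k) :
    (bas l : Fin 4 → ℤ) ∘ Equiv.swap j k = bas l := by
  rw [bas_perm, Equiv.symm_swap, Equiv.swap_apply_of_ne_of_ne h1 h2]

theorem bas_nonneg (k j : Fin 4) : 0 ≤ (bas k : Fin 4 → ℤ) j := by
  unfold bas
  rw [Pi.single_apply]
  split_ifs <;> norm_num

theorem bas_self (k : Fin 4) : (bas k : Fin 4 → ℤ) k = 1 := by simp [bas]

theorem bas_ne {j k : Fin 4} (h : j ≠ k) : (bas k : Fin 4 → ℤ) j = 0 := by simp [bas, h]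

theorem rf_bas {i k : Fin 4} (h : i ≠ k) : rf i (bas k : Fin 4 → ℤ) = bas k := by
  funext j
  by_cases hj : j = i
  · subst hj
    rw [rf_self, bas_ne h, neg_zero]
  · rw [rf_ne hj, bas_ne h]
    ring

theorem sum_bas (k : Fin 4) : ∑ i, (bas k : Fin 4 → ℤ) i = 1 := by
  simp [bas]

theorem tt_self (k : Fin 4) : tt k (bas k : Fin 4 → ℤ) = -1 := by
  unfold tt
  rw [sum_bas, bas_self]
  norm_num

theorem tt_ne {j k : Fin 4} (h : j ≠ k) : tt j (bas k : Fin 4 → ℤ) = 1 := by
  unfold tt
  rw [sum_bas, bas_ne h]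
  norm_num

theorem BB_bas (k : Fin 4) (y : Fin 4 → ℤ) : BB (bas k) y = - tt k y := by
  unfold BB tt
  rw [sum_bas]
  have : ∑ i, (bas k : Fin 4 → ℤ) i * y i = y k := by
    simp [bas, Pi.single_apply]
  rw [this]
  ring

theorem sum_rf (i : Fin 4) (x : Fin 4 → ℤ) : ∑ j, rf i x j = (∑ j, x j) + 4 * x i := by
  unfold rf
  simp only [Fin.sum_univ_four]
  fin_cases i <;> simp <;> ring

theorem tt_rf_self (i : Fin 4) (x : Fin 4 → ℤ) : tt i (rf i x) = tt i x + 8 * x i := by
  unfold tt
  rw [sum_rf, rf_self]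
  ring

theorem tt_rf_ne {i j : Fin 4} (h : j ≠ i) (x : Fin 4 → ℤ) : tt j (rf i x) = tt j x := by
  unfold tt
  rw [sum_rf, rf_ne h]
  ring

theorem str {x : Fin 4 → ℤ} (h : Good x) : (∃ k, x = bas k) ∨
    ∃ i, x i < 0 ∧ (∀ j, j ≠ i → - x i ≤ x j) ∧ Good (rf i x) := by
  induction h with
  | base k => exact Or.inl ⟨k, rfl⟩
  | up i x hx hpos ih =>
    refine Or.inr ⟨i, ?_, fun j hj => ?_, ?_⟩
    · rw [rf_self]; linarith
    · rw [rf_self, rf_ne hj]
      rcases ih with ⟨k, rfl⟩ | ⟨i', h1, h2, -⟩
      · have := bas_nonneg k j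
        linarith
      · have hne : i ≠ i' := by
          rintro rfl
          linarith
        by_cases hj' : j = i'
        · subst hj'
          have := h2 i hne
          linarith
        · have := h2 j hj'
          linarith
    · rw [rf_rf]
      exact hx

theorem good_rf {x : Fin 4 → ℤ} (h : Good x) (i : Fin 4) : Good (rf i x) := by
  rcases lt_trichotomy (x i) 0 with h0 | h0 | h0
  · rcases str h with ⟨k, rfl⟩ | ⟨i', h1, h2, h3⟩
    · have := bas_nonneg k i
      linarith
    · by_cases hi : i = i'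
      · subst hi
        exact h3
      · have := h2 i hi
        linarith
  · have : rf i x = x := by
      funext j
      by_cases hj : j = i
      · subst hj
        rw [rf_self, h0, neg_zero]
      · rw [rf_ne hj, h0]
        ring
    rw [this]
    exact h
  · exact Good.up i x h h0

theorem good_perm {x : Fin 4 → ℤ} (h : Good x) (π : Equiv.Perm (Fin 4)) : Good (x ∘ π) := by
  induction h with
  | base k =>
    rw [bas_perm]
    exact Good.base _
  | up i x hx hpos ih =>
    rw [rf_perm]
    refine Good.up _ _ ih ?_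
    simpa using hpos

theorem good_tt {x : Fin 4 → ℤ} (h : Good x) (j : Fin 4) : x = bas j ∨ 1 ≤ tt j x := by
  induction h with
  | base k =>
    by_cases hj : j = k
    · left; rw [hj]
    · right; rw [tt_ne hj]
  | up i x hx hpos ih =>
    right
    by_cases hj : j = i
    · subst hj
      rw [tt_rf_self]
      rcases ih with rfl | h1
      · rw [tt_self, bas_self]
        norm_num
      · linarith
    · rw [tt_rf_ne hj]
      rcases ih with rfl | h1
      · rw [bas_ne (Ne.symm hj)] at hpos
        exact absurd hpos (lt_irrefl 0)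
      · exact h1

theorem good_QQ {x : Fin 4 → ℤ} (h : Good x) : QQ x = 1 := by
  induction h with
  | base k =>
    unfold QQ
    rw [BB_bas, tt_self, neg_neg]
  | up i x hx hpos ih =>
    unfold QQ at ih ⊢
    rw [BB_rf, ih]

theorem good_23 {x : Fin 4 → ℤ} (h : Good x) : 0 ≤ x 2 + x 3 := by
  rcases str h with ⟨k, rfl⟩ | ⟨i, h1, h2, -⟩
  · exact add_nonneg (bas_nonneg _ _) (bas_nonneg _ _)
  · by_cases h3 : i = 2
    · subst h3
      have := h2 3 (by decide)
      linarith
    · by_cases h4 : i = 3
      · subst h4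
        have := h2 2 (by decide)
        linarith
      · have a := h2 2 (Ne.symm h3)
        have b := h2 3 (Ne.symm h4)
        linarith

theorem good_BB {x : Fin 4 → ℤ} (h : Good x) : ∀ y, Good y → x ≠ y → BB x y ≤ -1 := by
  induction h with
  | base k =>
    intro y hy hne
    rw [BB_bas]
    rcases good_tt hy k with h1 | h1
    · exact absurd h1.symm hne
    · linarith
  | up i x hx hpos ih =>
    intro y hy hne
    rw [BB_rf']
    refine ih _ (good_rf hy i) ?_
    rintro rfl
    exact hne (rf_rf i y)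

/-- `i ≠ j` if `tt j` of the new vector is one -/
theorem ne_of_tt {x : Fin 4 → ℤ} (h : Good x) {i j : Fin 4} (hpos : 0 < x i)
    (ht : tt j (rf i x) = 1) : i ≠ j := by
  rintro rfl
  rw [tt_rf_self] at ht
  rcases good_tt h i with rfl | h1
  · rw [tt_self, bas_self] at ht
    omega
  · omega

theorem good : StGood := by
  refine ⟨fun x h => good_QQ h, fun x i h => good_rf h i, fun x π h => good_perm h π,
    fun x h j => good_tt h j, fun x h => good_23 h, fun x y hx hy hne => good_BB hx y hy hne, ?_⟩
  intro p hp1 hp2 hp3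
  -- two base vectors
  have h3 : ∀ z, Good z → tt 0 z = 1 → tt 1 z = 1 → p (bas 0) (bas 1) z := by
    intro z hz
    induction hz with
    | base k =>
      intro a b
      have k0 : k ≠ 0 := by
        rintro rfl
        rw [tt_self] at a
        omega
      have k1 : k ≠ 1 := by
        rintro rfl
        rw [tt_self] at b
        omega
      refine hp2 (Equiv.swap 2 k) _ _ _ ?_
      rw [bas_swap, bas_fix (by decide) k0.symm, bas_fix (by decide) k1.symm]
      exact hp3
    | up i z hz hpos ih =>
      intro a b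
      have i0 := ne_of_tt hz hpos a
      have i1 := ne_of_tt hz hpos b
      refine hp1 i _ _ _ ?_
      rw [rf_bas i0, rf_bas i1, rf_rf]
      exact ih (by rwa [tt_rf_ne i0.symm] at a) (by rwa [tt_rf_ne i1.symm] at b)
  -- one base vector
  have h2 : ∀ y, Good y → ∀ z, Good z → tt 0 y = 1 → tt 0 z = 1 → BB y z = -1 →
      p (bas 0) y z := by
    intro y hy
    induction hy with
    | base k =>
      intro z hz a b c
      have k0 : k ≠ 0 := by
        rintro rfl
        rw [tt_self] at a
        omega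
      refine hp2 (Equiv.swap 1 k) _ _ _ ?_
      rw [bas_swap, bas_fix (by decide) k0.symm]
      refine h3 _ (good_perm hz _) ?_ ?_
      · have e : BB (bas 0) (z ∘ Equiv.swap 1 k) = BB (bas 0) z := by
          have := BB_perm (Equiv.swap 1 k) (bas 0) z
          rwa [bas_fix (by decide) k0.symm] at this
        rw [BB_bas, BB_bas] at e
        linarith
      · have e : BB (bas 1) (z ∘ Equiv.swap 1 k) = BB (bas k) z := by
          have := BB_perm (Equiv.swap 1 k) (bas k) z
          rwa [bas_swap] at this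
        rw [c, BB_bas] at e
        linarith
    | up i y hy hpos ih =>
      intro z hz a b c
      have i0 := ne_of_tt hy hpos a
      refine hp1 i _ _ _ ?_
      rw [rf_bas i0, rf_rf]
      exact ih _ (good_rf hz i) (by rwa [tt_rf_ne i0.symm] at a) (by rwa [tt_rf_ne i0.symm])
        (by rwa [BB_rf'] at c)
  intro x y z hx
  induction hx generalizing y z with
  | base k =>
    intro hy hz a b c
    refine hp2 (Equiv.swap 0 k) _ _ _ ?_
    rw [bas_swap]
    refine h2 _ (good_perm hy _) _ (good_perm hz _) ?_ ?_ ?_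
    · have e : BB (bas 0) (y ∘ Equiv.swap 0 k) = BB (bas k) y := by
        have := BB_perm (Equiv.swap 0 k) (bas k) y
        rwa [bas_swap] at this
      rw [a, BB_bas] at e
      linarith
    · have e : BB (bas 0) (z ∘ Equiv.swap 0 k) = BB (bas k) z := by
        have := BB_perm (Equiv.swap 0 k) (bas k) z
        rwa [bas_swap] at this
      rw [c, BB_bas] at e
      linarith
    · rw [BB_perm]
      exact b
  | up i x hx hpos ih =>
    intro hy hz a b c
    refine hp1 i _ _ _ ?_
    rw [rf_rf]
    exact ih _ _ (good_rf hy i) (good_rf hz i) (by rwa [BB_rf'] at a) (by rwa [BB_rf])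
      (by rwa [BB_rf'] at c)

end Pool.Agent.N614.AP
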